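import Mathlib

/-!
# MP_ec2b5b_lc : posted pricing against menus with exclusive private outside options

For every `n` we give finitely supported distributions `F`, `G` such that `OPT(F, G)` is at least
`n * L` and `PP(F, G)` is at most `7 * L` for some `L > 0`. So posted pricing is not a
constant-factor approximation.

The value `v` equals `4 ^ k` with probability `L / (g k * 2 ^ k)`, and the outside option is at most
`(2 ^ k - 1) * (2 ^ k - 2)` with probability `g k`, where `g k / g (k - 1) = 4 ^ n`. The menu is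
`(1 - 2 ^ (-k), 2 ^ (k + 1) - 2)`, `k = 1, ..., n`.
-/

namespace Pool.Agent.Results.MP_ec2b5b_lc.UnboundedGap

open MeasureTheory

/-- The options of a buyer: `none` is to decline, `some (x, p)` is to pick the lottery `(x, p)`. The
utility of a buyer of type `(v, c)` is `c` for declining and `v * x - p` for `(x, p)`. -/
def util (v c : ℝ) : Option (ℝ × ℝ) → ℝ
  | none => c
  | some z => v * z.1 - z.2

/-- The payment made when an option is picked. -/
def pay : Option (ℝ × ℝ) → ℝ
  | none => 0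
  | some z => z.2

/-- The options available with the menu `M`. -/
def choices (M : Set (ℝ × ℝ)) : Set (Option (ℝ × ℝ)) := insert none (some '' M)

/-- The option `o` maximizes the utility of type `(v, c)`. -/
def IsBest (M : Set (ℝ × ℝ)) (v c : ℝ) (o : Option (ℝ × ℝ)) : Prop :=
  o ∈ choices M ∧ ∀ o' ∈ choices M, util v c o' ≤ util v c o

/-- A menu: a set of lotteries in `[0,1] × ℝ` such that each type has a utility-maximizing option. -/
def IsMenu (M : Set (ℝ × ℝ)) : Prop :=
  (∀ z ∈ M, 0 ≤ z.1 ∧ z.1 ≤ 1) ∧ ∀ v c : ℝ, 0 ≤ v → 0 ≤ c → ∃ o, IsBest M v c o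

/-- The payment of type `(v, c)`, with ties broken in the seller's favour. -/
noncomputable def payment (M : Set (ℝ × ℝ)) (v c : ℝ) : ℝ :=
  sSup {r | ∃ o, IsBest M v c o ∧ pay o = r}

/-- The optimal revenue, for independent `v ∼ F` and `c ∼ G`. -/
noncomputable def OPT (F G : Measure ℝ) : ENNReal :=
  ⨆ (M : Set (ℝ × ℝ)) (_ : IsMenu M), ENNReal.ofReal (∫ z, payment M z.1 z.2 ∂(F.prod G))

/-- The optimal posted-price revenue: the supremum of `P * Pr[v - P ≥ c]` over prices `P ≥ 0`. -/
noncomputable def PP (F G : Measure ℝ) : ENNReal :=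
  ⨆ (P : ℝ) (_ : 0 ≤ P), ENNReal.ofReal P * (F.prod G) {z | z.1 - P ≥ z.2}

/-- A probability distribution on `[0, ∞)`. -/
def IsDistribution (F : Measure ℝ) : Prop := IsProbabilityMeasure F ∧ F (Set.Iio 0) = 0

/-! ### Finitely supported measures -/

/-- The measure with weights `w i` at the points `a i`, `i ∈ s`. -/
noncomputable def disc (s : Finset ℕ) (w a : ℕ → ℝ) : Measure ℝ :=
  ∑ i ∈ s, ENNReal.ofReal (w i) • Measure.dirac (a i)

instance disc_finite (s : Finset ℕ) (w a : ℕ → ℝ) : IsFiniteMeasure (disc s w a) := by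
  constructor
  unfold disc
  rw [Measure.finsetSum_apply]
  simp only [Measure.smul_apply, Measure.dirac_apply, Set.indicator_univ, Pi.one_apply,
    smul_eq_mul, mul_one]
  exact ENNReal.sum_lt_top.mpr (fun i _ => ENNReal.ofReal_lt_top)

theorem disc_prod (s s' : Finset ℕ) (w a w' a' : ℕ → ℝ) :
    (disc s w a).prod (disc s' w' a') =
      ∑ i ∈ s, ∑ j ∈ s', (ENNReal.ofReal (w i) * ENNReal.ofReal (w' j)) •
        Measure.dirac (a i, a' j) := by
  apply Measure.prod_eq
  intro A B hA hB
  unfold disc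
  simp only [Measure.finsetSum_apply, Measure.smul_apply, smul_eq_mul, Measure.dirac_apply]
  rw [Finset.sum_mul_sum]
  apply Finset.sum_congr rfl
  intro i _
  apply Finset.sum_congr rfl
  intro j _
  by_cases h1 : a i ∈ A <;> by_cases h2 : a' j ∈ B <;> simp [h1, h2]

theorem integral_disc (s s' : Finset ℕ) (w a w' a' : ℕ → ℝ) (hw : ∀ i ∈ s, 0 ≤ w i)
    (hw' : ∀ i ∈ s', 0 ≤ w' i) (φ : ℝ × ℝ → ℝ) :
    ∫ z, φ z ∂((disc s w a).prod (disc s' w' a')) =
      ∑ i ∈ s, ∑ j ∈ s', w i * w' j * φ (a i, a' j) := by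
  rw [disc_prod]
  have hint : ∀ i j, Integrable φ ((ENNReal.ofReal (w i) * ENNReal.ofReal (w' j)) •
      Measure.dirac (a i, a' j)) := by
    intro i j
    apply Integrable.smul_measure
    · apply integrable_dirac
      simp
    · exact ENNReal.mul_ne_top ENNReal.ofReal_ne_top ENNReal.ofReal_ne_top
  rw [integral_finsetSum_measure]
  · apply Finset.sum_congr rfl
    intro i hi
    rw [integral_finsetSum_measure (fun j _ => hint i j)]
    apply Finset.sum_congr rfl
    intro j hj
    rw [integral_smul_measure, integral_dirac, ENNReal.toReal_mul,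
      ENNReal.toReal_ofReal (hw i hi), ENNReal.toReal_ofReal (hw' j hj), smul_eq_mul]
  · intro i _
    exact integrable_finsetSum_measure.mpr (fun j _ => hint i j)

theorem disc_prod_apply (s s' : Finset ℕ) (w a w' a' : ℕ → ℝ) (hw : ∀ i ∈ s, 0 ≤ w i)
    (hw' : ∀ i ∈ s', 0 ≤ w' i) (A : Set (ℝ × ℝ)) [DecidablePred (· ∈ A)] :
    ((disc s w a).prod (disc s' w' a')) A =
      ENNReal.ofReal (∑ i ∈ s, ∑ j ∈ s', w i * w' j * (if (a i, a' j) ∈ A then 1 else 0)) := by
  have hnn : ∀ i ∈ s, ∀ j ∈ s', 0 ≤ w i * w' j * (if (a i, a' j) ∈ A then (1 : ℝ) else 0) := by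
    intro i hi j hj
    apply mul_nonneg (mul_nonneg (hw i hi) (hw' j hj))
    split_ifs <;> norm_num
  rw [disc_prod, ENNReal.ofReal_sum_of_nonneg (fun i hi => Finset.sum_nonneg (hnn i hi)),
    Measure.finsetSum_apply]
  apply Finset.sum_congr rfl
  intro i hi
  rw [ENNReal.ofReal_sum_of_nonneg (hnn i hi), Measure.finsetSum_apply]
  apply Finset.sum_congr rfl
  intro j hj
  rw [Measure.smul_apply, Measure.dirac_apply, smul_eq_mul]
  by_cases h : (a i, a' j) ∈ A
  · rw [if_pos h, Set.indicator_of_mem h, ENNReal.ofReal_mul (mul_nonneg (hw i hi) (hw' j hj)),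
      ENNReal.ofReal_mul (hw i hi)]
    simp
  · rw [if_neg h, Set.indicator_of_notMem h]
    simp

theorem disc_distribution (s : Finset ℕ) (w a : ℕ → ℝ) (hw : ∀ i ∈ s, 0 ≤ w i)
    (ha : ∀ i ∈ s, 0 ≤ a i) (hsum : ∑ i ∈ s, w i = 1) : IsDistribution (disc s w a) := by
  constructor
  · constructor
    unfold disc
    rw [Measure.finsetSum_apply]
    simp only [Measure.smul_apply, Measure.dirac_apply, Set.indicator_univ, Pi.one_apply,
      smul_eq_mul, mul_one]
    rw [← ENNReal.ofReal_sum_of_nonneg hw, hsum, ENNReal.ofReal_one]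
  · unfold disc
    rw [Measure.finsetSum_apply]
    apply Finset.sum_eq_zero
    intro i hi
    rw [Measure.smul_apply, Measure.dirac_apply, Set.indicator_of_notMem]
    · simp
    · simp only [Set.mem_Iio, not_lt]
      exact ha i hi

/-! ### The distributions -/

/-- The distribution function of the outside option at its `k`-th value. -/
noncomputable def gc (n k : ℕ) : ℝ := if k = 0 then 0 else 4 ^ (n * k) / 4 ^ (n * n)

/-- The `k`-th value of the outside option. -/
noncomputable def cv (k : ℕ) : ℝ := (2 ^ k - 1) * (2 ^ k - 2)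

/-- The probability of the value `4 ^ k`. -/
noncomputable def fw (n k : ℕ) : ℝ := 1 / (4 ^ (n * k) * 2 ^ k)

/-- The values of the item. -/
noncomputable def va (i : ℕ) : ℝ := if i = 0 then 0 else 4 ^ i

/-- The probabilities of the values of the item. -/
noncomputable def vw (n i : ℕ) : ℝ :=
  if i = 0 then 1 - ∑ k ∈ Finset.range n, fw n (k + 1) else fw n i

/-- The probabilities of the outside options. -/
noncomputable def cw (n j : ℕ) : ℝ := gc n (j + 1) - gc n j

/-- The distribution of the value of the item. -/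
noncomputable def FF (n : ℕ) : Measure ℝ := disc (Finset.range (n + 1)) (vw n) va

/-- The distribution of the outside option. -/
noncomputable def GG (n : ℕ) : Measure ℝ := disc (Finset.range n) (cw n) (fun j => cv (j + 1))

theorem gc_nonneg (n k : ℕ) : 0 ≤ gc n k := by
  unfold gc
  split_ifs <;> positivity

theorem gc_mono (n k : ℕ) : gc n k ≤ gc n (k + 1) := by
  unfold gc
  rw [if_neg (Nat.succ_ne_zero k)]
  split_ifs with h
  · positivity
  · apply div_le_div_of_nonneg_right _ (by positivity)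
    exact pow_le_pow_right₀ (by norm_num) (by nlinarith)

theorem cw_nonneg (n j : ℕ) : 0 ≤ cw n j := sub_nonneg.mpr (gc_mono n j)

theorem sum_cw (n k : ℕ) : ∑ j ∈ Finset.range k, cw n j = gc n k := by
  unfold cw
  rw [Finset.sum_range_sub]
  simp [gc]

theorem gc_self {n : ℕ} (hn : n ≠ 0) : gc n n = 1 := by
  unfold gc
  rw [if_neg hn]
  exact div_self (by positivity)

theorem fw_nonneg (n k : ℕ) : 0 ≤ fw n k := by
  unfold fw
  positivity

theorem sum_half (n : ℕ) : ∑ k ∈ Finset.range n, (1 : ℝ) / 2 ^ (k + 1) = 1 - 1 / 2 ^ n := by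
  induction n with
  | zero => simp
  | succ n ih =>
    rw [Finset.sum_range_succ, ih]
    field_simp
    ring

theorem sum_fw (n : ℕ) : ∑ k ∈ Finset.range n, fw n (k + 1) ≤ 1 := by
  calc ∑ k ∈ Finset.range n, fw n (k + 1) ≤ ∑ k ∈ Finset.range n, (1 : ℝ) / 2 ^ (k + 1) := by
        apply Finset.sum_le_sum
        intro k _
        unfold fw
        apply one_div_le_one_div_of_le (by positivity)
        have h1 : (1 : ℝ) ≤ 4 ^ (n * (k + 1)) := one_le_pow₀ (by norm_num)
        have h2 : (0 : ℝ) < 2 ^ (k + 1) := by positivity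
        nlinarith
    _ = 1 - 1 / 2 ^ n := sum_half n
    _ ≤ 1 := by
        have : (0 : ℝ) < 1 / 2 ^ n := by positivity
        linarith

theorem vw_nonneg (n i : ℕ) : 0 ≤ vw n i := by
  unfold vw
  split_ifs
  · linarith [sum_fw n]
  · exact fw_nonneg n i

theorem sum_vw (n : ℕ) : ∑ i ∈ Finset.range (n + 1), vw n i = 1 := by
  rw [Finset.sum_range_succ']
  simp [vw]

theorem va_nonneg (i : ℕ) : 0 ≤ va i := by
  unfold va
  split_ifs
  · exact le_refl _
  · positivity

theorem two_le_pow {k : ℕ} (hk : 1 ≤ k) : (2 : ℝ) ≤ 2 ^ k := by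
  calc (2 : ℝ) = 2 ^ 1 := by norm_num
    _ ≤ 2 ^ k := pow_le_pow_right₀ (by norm_num) hk

theorem cv_nonneg {k : ℕ} (hk : 1 ≤ k) : 0 ≤ cv k := by
  have := two_le_pow hk
  unfold cv
  apply mul_nonneg <;> linarith

theorem cv_mono {k m : ℕ} (hk : 1 ≤ k) (hm : k ≤ m) : cv k ≤ cv m := by
  have h1 := two_le_pow hk
  have h2 : (2 : ℝ) ^ k ≤ 2 ^ m := pow_le_pow_right₀ (by norm_num) hm
  unfold cv
  nlinarith

theorem four_pow (k : ℕ) : (4 : ℝ) ^ k = 2 ^ k * 2 ^ k := by
  rw [← mul_pow]
  norm_num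

theorem lt_cv {k m : ℕ} (hk : 1 ≤ k) (hm : k + 1 ≤ m) : (4 : ℝ) ^ k < cv m := by
  have h1 := two_le_pow hk
  have h2 : (2 : ℝ) ^ (k + 1) ≤ 2 ^ m := pow_le_pow_right₀ (by norm_num) hm
  rw [pow_succ] at h2
  rw [four_pow]
  unfold cv
  nlinarith

theorem FF_distribution (n : ℕ) : IsDistribution (FF n) :=
  disc_distribution _ _ _ (fun i _ => vw_nonneg n i) (fun i _ => va_nonneg i) (sum_vw n)

theorem GG_distribution {n : ℕ} (hn : n ≠ 0) : IsDistribution (GG n) :=
  disc_distribution _ _ _ (fun i _ => cw_nonneg n i) (fun i _ => cv_nonneg (Nat.le_add_left 1 i))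
    (by rw [sum_cw, gc_self hn])

/-! ### The menu -/

/-- The menu. -/
def menu (n : ℕ) : Set (ℝ × ℝ) :=
  (fun k : ℕ => ((1 - (1 / 2) ^ k, 2 ^ (k + 1) - 2) : ℝ × ℝ)) '' (Set.Icc 1 n)

theorem menu_finite (n : ℕ) : (menu n).Finite := (Set.finite_Icc 1 n).image _

theorem choices_finite (n : ℕ) : (choices (menu n)).Finite :=
  ((menu_finite n).image _).insert _

theorem menu_isMenu (n : ℕ) : IsMenu (menu n) := by
  constructor
  · rintro z ⟨k, _, rfl⟩
    have h1 : (0 : ℝ) < (1 / 2) ^ k := by positivity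
    have h2 : ((1 : ℝ) / 2) ^ k ≤ 1 := pow_le_one₀ (by norm_num) (by norm_num)
    constructor
    · show (0 : ℝ) ≤ 1 - (1 / 2) ^ k
      linarith
    · show (1 : ℝ) - (1 / 2) ^ k ≤ 1
      linarith
  · intro v c _ _
    obtain ⟨o, ho, h⟩ := Set.exists_max_image (choices (menu n)) (util v c) (choices_finite n)
      ⟨none, Set.mem_insert _ _⟩
    exact ⟨o, ho, h⟩

theorem pay_nonneg {n : ℕ} {o : Option (ℝ × ℝ)} (ho : o ∈ choices (menu n)) : 0 ≤ pay o := by
  rcases ho with rfl | ⟨z, ⟨k, hk, rfl⟩, rfl⟩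
  · exact le_refl _
  · show (0 : ℝ) ≤ 2 ^ (k + 1) - 2
    have := two_le_pow (Nat.le_add_left 1 k)
    linarith

theorem payment_nonneg (n : ℕ) (v c : ℝ) : 0 ≤ payment (menu n) v c := by
  apply Real.sSup_nonneg
  rintro r ⟨o, ho, rfl⟩
  exact pay_nonneg ho.1

theorem util_menu (k m : ℕ) (c : ℝ) :
    util (4 ^ k) c (some (1 - (1 / 2) ^ m, 2 ^ (m + 1) - 2)) =
      4 ^ k - 4 ^ k / 2 ^ m - 2 * 2 ^ m + 2 := by
  show (4 : ℝ) ^ k * (1 - (1 / 2) ^ m) - (2 ^ (m + 1) - 2) = _
  rw [one_div, inv_pow, pow_succ]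
  ring

theorem util_best (k m : ℕ) (c : ℝ) :
    util (4 ^ k) c (some (1 - (1 / 2) ^ m, 2 ^ (m + 1) - 2)) ≤ cv k := by
  rw [util_menu]
  have ha : (0 : ℝ) < 2 ^ k := by positivity
  have hy : (0 : ℝ) < 2 ^ m := by positivity
  have key : 0 ≤ ((2 : ℝ) ^ k - 2 ^ m) * (2 ^ k - 2 * 2 ^ m) := by
    rcases Nat.lt_or_ge m k with h | h
    · have h2 : (2 : ℝ) ^ (m + 1) ≤ 2 ^ k := pow_le_pow_right₀ (by norm_num) h
      rw [pow_succ] at h2
      apply mul_nonneg <;> linarith
    · have h2 : (2 : ℝ) ^ k ≤ 2 ^ m := pow_le_pow_right₀ (by norm_num) h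
      apply mul_nonneg_of_nonpos_of_nonpos <;> linarith
  have h3 : 3 * (2 : ℝ) ^ k ≤ 4 ^ k / 2 ^ m + 2 * 2 ^ m := by
    rw [four_pow, ← sub_nonneg]
    have : (2 : ℝ) ^ k * 2 ^ k / 2 ^ m + 2 * 2 ^ m - 3 * 2 ^ k =
        ((2 : ℝ) ^ k - 2 ^ m) * (2 ^ k - 2 * 2 ^ m) / 2 ^ m := by
      field_simp
      ring
    rw [this]
    positivity
  have h4 : cv k = 4 ^ k - 3 * 2 ^ k + 2 := by
    unfold cv
    rw [four_pow]
    ring
  rw [h4]
  linarith

theorem util_self (k : ℕ) (c : ℝ) :
    util (4 ^ k) c (some (1 - (1 / 2) ^ k, 2 ^ (k + 1) - 2)) = cv k := by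
  rw [util_menu]
  have ha : (0 : ℝ) < 2 ^ k := by positivity
  unfold cv
  rw [four_pow, mul_div_assoc, div_self ha.ne']
  ring

theorem payment_ge {n k : ℕ} (hk : 1 ≤ k) (hkn : k ≤ n) {c : ℝ} (hc : c ≤ cv k) :
    (2 : ℝ) ^ k ≤ payment (menu n) (4 ^ k) c := by
  have h1 : (2 : ℝ) ^ k ≤ 2 ^ (k + 1) - 2 := by
    have := two_le_pow hk
    rw [pow_succ]
    linarith
  apply h1.trans
  apply le_csSup
  · have : ({r | ∃ o, IsBest (menu n) (4 ^ k) c o ∧ pay o = r} : Set ℝ) ⊆
        pay '' (choices (menu n)) := by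
      rintro r ⟨o, ho, rfl⟩
      exact ⟨o, ho.1, rfl⟩
    exact (((choices_finite n).image pay).subset this).bddAbove
  · refine ⟨some (1 - (1 / 2) ^ k, 2 ^ (k + 1) - 2), ⟨?_, ?_⟩, rfl⟩
    · exact Or.inr ⟨_, ⟨k, ⟨hk, hkn⟩, rfl⟩, rfl⟩
    · intro o' ho'
      rw [util_self]
      rcases ho' with rfl | ⟨z, ⟨m, hm, rfl⟩, rfl⟩
      · exact hc
      · exact util_best k m c

theorem revenue_ge {n : ℕ} :
    (n : ℝ) * (1 / 4 ^ (n * n)) ≤ ∫ z, payment (menu n) z.1 z.2 ∂((FF n).prod (GG n)) := by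
  unfold FF GG
  rw [integral_disc _ _ _ _ _ _ (fun i _ => vw_nonneg n i) (fun j _ => cw_nonneg n j)]
  rw [Finset.sum_range_succ']
  have h0 : 0 ≤ ∑ j ∈ Finset.range n, vw n 0 * cw n j *
      payment (menu n) (va 0, cv (j + 1)).1 (va 0, cv (j + 1)).2 := by
    apply Finset.sum_nonneg
    intro j _
    exact mul_nonneg (mul_nonneg (vw_nonneg n 0) (cw_nonneg n j)) (payment_nonneg n _ _)
  have h1 : ∀ k ∈ Finset.range n, 1 / (4 : ℝ) ^ (n * n) ≤
      ∑ j ∈ Finset.range n, vw n (k + 1) * cw n j *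
        payment (menu n) (va (k + 1), cv (j + 1)).1 (va (k + 1), cv (j + 1)).2 := by
    intro k hk
    have hk' := Finset.mem_range.mp hk
    calc 1 / (4 : ℝ) ^ (n * n) = fw n (k + 1) * gc n (k + 1) * 2 ^ (k + 1) := by
          unfold fw gc
          rw [if_neg (Nat.succ_ne_zero k)]
          field_simp
      _ = ∑ j ∈ Finset.range (k + 1), vw n (k + 1) * cw n j * 2 ^ (k + 1) := by
          rw [← sum_cw, Finset.mul_sum, Finset.sum_mul]
          apply Finset.sum_congr rfl
          intro j _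
          simp [vw]
      _ ≤ ∑ j ∈ Finset.range (k + 1), vw n (k + 1) * cw n j *
            payment (menu n) (va (k + 1), cv (j + 1)).1 (va (k + 1), cv (j + 1)).2 := by
          apply Finset.sum_le_sum
          intro j hj
          apply mul_le_mul_of_nonneg_left _ (mul_nonneg (vw_nonneg _ _) (cw_nonneg _ _))
          have hv : va (k + 1) = 4 ^ (k + 1) := by simp [va]
          show (2 : ℝ) ^ (k + 1) ≤ payment (menu n) (va (k + 1)) (cv (j + 1))
          rw [hv]
          apply payment_ge (Nat.le_add_left 1 k) (by omega)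
          apply cv_mono (Nat.le_add_left 1 j)
          have := Finset.mem_range.mp hj
          omega
      _ ≤ ∑ j ∈ Finset.range n, vw n (k + 1) * cw n j *
            payment (menu n) (va (k + 1), cv (j + 1)).1 (va (k + 1), cv (j + 1)).2 := by
          apply Finset.sum_le_sum_of_subset_of_nonneg
          · exact Finset.range_subset_range.mpr (by omega)
          · intro j _ _
            exact mul_nonneg (mul_nonneg (vw_nonneg _ _) (cw_nonneg _ _)) (payment_nonneg n _ _)
  have h2 := Finset.sum_le_sum h1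
  rw [Finset.sum_const, Finset.card_range, nsmul_eq_mul] at h2
  linarith

/-! ### The posted prices -/

theorem sum_cut (n : ℕ) (y : ℝ) :
    ∑ k ∈ Finset.range n, (if y ≤ 2 ^ (k + 1) then y / 2 ^ (k + 1) else 0) ≤
      if y ≤ 2 ^ n then 2 - y / 2 ^ n else 0 := by
  induction n with
  | zero =>
    simp only [Finset.range_zero, Finset.sum_empty, pow_zero, div_one]
    split_ifs with h <;> linarith
  | succ n ih =>
    rw [Finset.sum_range_succ]
    have hp : (0 : ℝ) < 2 ^ n := by positivity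
    by_cases h1 : y ≤ 2 ^ n
    · have h2 : y ≤ 2 ^ (n + 1) := by rw [pow_succ]; linarith
      rw [if_pos h1] at ih
      rw [if_pos h2, if_pos h2]
      have : y / 2 ^ n = 2 * (y / 2 ^ (n + 1)) := by
        rw [pow_succ]
        field_simp
      linarith
    · rw [if_neg h1] at ih
      by_cases h2 : y ≤ 2 ^ (n + 1)
      · rw [if_pos h2, if_pos h2]
        have : y / 2 ^ (n + 1) ≤ 1 := by
          rw [div_le_one (by positivity)]
          exact h2
        linarith
      · rw [if_neg h2, if_neg h2]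
        linarith

theorem price_le {n : ℕ} {P : ℝ} (hP : 0 ≤ P) :
    P * ∑ i ∈ Finset.range (n + 1), ∑ j ∈ Finset.range n,
      vw n i * cw n j * (if va i - P ≥ cv (j + 1) then 1 else 0) ≤ 7 * (1 / 4 ^ (n * n)) := by
  rw [Finset.sum_range_succ', mul_add, Finset.mul_sum]
  have h0 : P * ∑ j ∈ Finset.range n,
      vw n 0 * cw n j * (if va 0 - P ≥ cv (j + 1) then 1 else 0) = 0 := by
    rcases hP.eq_or_lt with h | h
    · rw [← h, zero_mul]
    · rw [Finset.sum_eq_zero, mul_zero]
      intro j _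
      rw [if_neg, mul_zero]
      have := cv_nonneg (Nat.le_add_left 1 j)
      simp only [va, if_true, ge_iff_le, not_le]
      linarith
  rw [h0, add_zero]
  have h1 : ∀ k ∈ Finset.range n,
      P * ∑ j ∈ Finset.range n, vw n (k + 1) * cw n j *
        (if va (k + 1) - P ≥ cv (j + 1) then 1 else 0) ≤
      (3 * (1 / 4 ^ (n * n))) *
        (if P / 3 ≤ 2 ^ (k + 1) then P / 3 / 2 ^ (k + 1) else 0) +
        (1 / 4 ^ (n * n)) * (1 / 2 ^ (k + 1)) := by
    intro k hk
    have hk' := Finset.mem_range.mp hk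
    have hvw : vw n (k + 1) = fw n (k + 1) := by simp [vw]
    have hva : va (k + 1) = 4 ^ (k + 1) := by simp [va]
    have hL : (0 : ℝ) < 1 / 4 ^ (n * n) := by positivity
    have hfg : fw n (k + 1) * gc n (k + 1) = (1 / 4 ^ (n * n)) * (1 / 2 ^ (k + 1)) := by
      unfold fw gc
      rw [if_neg (Nat.succ_ne_zero k)]
      field_simp
    -- the general bound for the inner sum
    have hin : ∀ m : ℕ, m ≤ n → (∀ j, va (k + 1) - P ≥ cv (j + 1) → j < m) →
        ∑ j ∈ Finset.range n, vw n (k + 1) * cw n j *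
          (if va (k + 1) - P ≥ cv (j + 1) then 1 else 0) ≤ fw n (k + 1) * gc n m := by
      intro m hm hj
      calc ∑ j ∈ Finset.range n, vw n (k + 1) * cw n j *
            (if va (k + 1) - P ≥ cv (j + 1) then 1 else 0)
          = ∑ j ∈ Finset.range m, vw n (k + 1) * cw n j *
            (if va (k + 1) - P ≥ cv (j + 1) then 1 else 0) := by
            symm
            apply Finset.sum_subset (Finset.range_subset_range.mpr hm)
            intro j _ hj'
            rw [if_neg, mul_zero]
            intro h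
            exact hj' (Finset.mem_range.mpr (hj j h))
        _ ≤ ∑ j ∈ Finset.range m, fw n (k + 1) * cw n j := by
            apply Finset.sum_le_sum
            intro j _
            rw [hvw]
            have h3 : 0 ≤ fw n (k + 1) * cw n j := mul_nonneg (fw_nonneg _ _) (cw_nonneg _ _)
            split_ifs <;> linarith
        _ = fw n (k + 1) * gc n m := by
            rw [← Finset.mul_sum, sum_cw]
    by_cases hc : P / 3 ≤ 2 ^ (k + 1)
    · rw [if_pos hc]
      have hb := hin (k + 1) (by omega) (by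
        intro j hj
        by_contra hcon
        have h3 : (4 : ℝ) ^ (k + 1) < cv (j + 1) := lt_cv (Nat.le_add_left 1 k) (by omega)
        rw [hva] at hj
        linarith)
      have h4 := mul_le_mul_of_nonneg_left hb hP
      rw [hfg] at h4
      have h5 : 0 < (1 / (4 : ℝ) ^ (n * n)) * (1 / 2 ^ (k + 1)) := by positivity
      have h6 : P * ((1 / (4 : ℝ) ^ (n * n)) * (1 / 2 ^ (k + 1))) =
          3 * (1 / 4 ^ (n * n)) * (P / 3 / 2 ^ (k + 1)) := by
        field_simp
      linarith
    · rw [if_neg hc, mul_zero, zero_add]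
      rw [not_le] at hc
      have hP' : 3 * (2 : ℝ) ^ (k + 1) < P := by linarith
      by_cases hPv : P ≤ 4 ^ (k + 1)
      · have hb := hin k (by omega) (by
          intro j hj
          by_contra hcon
          have h3 : cv (k + 1) ≤ cv (j + 1) := cv_mono (Nat.le_add_left 1 k) (by omega)
          have h4 : cv (k + 1) = 4 ^ (k + 1) - 3 * 2 ^ (k + 1) + 2 := by
            unfold cv
            rw [four_pow]
            ring
          rw [hva] at hj
          linarith)
        have h4 := mul_le_mul hPv hb (Finset.sum_nonneg (fun j _ => by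
          apply mul_nonneg (mul_nonneg (vw_nonneg _ _) (cw_nonneg _ _))
          split_ifs <;> norm_num)) (by positivity)
        apply h4.trans
        by_cases hk0 : k = 0
        · rw [hk0]
          simp only [gc, if_true, mul_zero]
          positivity
        · have h5 : (4 : ℝ) ^ (k + 1) * (fw n (k + 1) * gc n k) =
              (1 / 4 ^ (n * n)) * (1 / 2 ^ (k + 1)) * (4 ^ (k + 1) / 4 ^ n) := by
            unfold fw gc
            rw [if_neg hk0, mul_add n k 1, mul_one, pow_add (4 : ℝ) (n * k) n]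
            field_simp
          rw [h5]
          have h6 : (4 : ℝ) ^ (k + 1) / 4 ^ n ≤ 1 := by
            rw [div_le_one (by positivity)]
            exact pow_le_pow_right₀ (by norm_num) (by omega)
          have h7 : 0 < (1 / (4 : ℝ) ^ (n * n)) * (1 / 2 ^ (k + 1)) := by positivity
          nlinarith
      · rw [Finset.sum_eq_zero, mul_zero]
        · positivity
        · intro j _
          rw [if_neg, mul_zero]
          have := cv_nonneg (Nat.le_add_left 1 j)
          rw [hva]
          intro h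
          linarith
  apply (Finset.sum_le_sum h1).trans
  rw [Finset.sum_add_distrib, ← Finset.mul_sum, ← Finset.mul_sum, sum_half]
  have h2 := sum_cut n (P / 3)
  have h3 : (if P / 3 ≤ 2 ^ n then 2 - P / 3 / 2 ^ n else 0) ≤ (2 : ℝ) := by
    split_ifs
    · have : 0 ≤ P / 3 / 2 ^ n := by positivity
      linarith
    · norm_num
  have hL : (0 : ℝ) < 1 / 4 ^ (n * n) := by positivity
  have h4 : (0 : ℝ) < 1 / 2 ^ n := by positivity
  have h5 := h2.trans h3
  nlinarith [mul_le_mul_of_nonneg_left h5 hL.le, mul_pos hL h4]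

theorem PP_le (n : ℕ) : PP (FF n) (GG n) ≤ ENNReal.ofReal (7 * (1 / 4 ^ (n * n))) := by
  classical
  unfold PP
  apply iSup₂_le
  intro P hP
  unfold FF GG
  rw [disc_prod_apply _ _ _ _ _ _ (fun i _ => vw_nonneg n i) (fun j _ => cw_nonneg n j),
    ← ENNReal.ofReal_mul hP]
  apply ENNReal.ofReal_le_ofReal
  exact price_le hP

theorem OPT_ge (n : ℕ) : ENNReal.ofReal (n * (1 / 4 ^ (n * n))) ≤ OPT (FF n) (GG n) := by
  unfold OPT
  refine le_trans (ENNReal.ofReal_le_ofReal revenue_ge) ?_
  exact le_iSup₂ (f := fun (M : Set (ℝ × ℝ)) (_ : IsMenu M) =>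
    ENNReal.ofReal (∫ z, payment M z.1 z.2 ∂((FF n).prod (GG n)))) (menu n) (menu_isMenu n)

/-- **Main result (negative answer).** For every `C` there are distributions `F`, `G` on `[0, ∞)`
with `OPT(F, G) > C * PP(F, G)`: posted pricing is not a constant-factor approximation. -/
theorem result : ∀ C : ℝ, ∃ F G : Measure ℝ, IsDistribution F ∧ IsDistribution G ∧
    ENNReal.ofReal C * PP F G < OPT F G := by
  intro C
  obtain ⟨n, hn⟩ := exists_nat_gt (7 * max C 1)
  have hC1 : 1 ≤ max C 1 := le_max_right _ _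
  have hn0 : n ≠ 0 := by
    rintro rfl
    norm_num at hn
    linarith
  refine ⟨FF n, GG n, FF_distribution n, GG_distribution hn0, ?_⟩
  have hL : (0 : ℝ) < 1 / 4 ^ (n * n) := by positivity
  calc ENNReal.ofReal C * PP (FF n) (GG n)
      ≤ ENNReal.ofReal (max C 1) * ENNReal.ofReal (7 * (1 / 4 ^ (n * n))) :=
        mul_le_mul' (ENNReal.ofReal_le_ofReal (le_max_left _ _)) (PP_le n)
    _ = ENNReal.ofReal (max C 1 * (7 * (1 / 4 ^ (n * n)))) := by
        rw [ENNReal.ofReal_mul (p := max C 1) (by linarith)]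
    _ < ENNReal.ofReal (n * (1 / 4 ^ (n * n))) := by
        apply (ENNReal.ofReal_lt_ofReal_iff (by positivity)).mpr
        nlinarith
    _ ≤ OPT (FF n) (GG n) := OPT_ge n

end Pool.Agent.Results.MP_ec2b5b_lc.UnboundedGap
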